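import Pool.Agent.R826.CIFSEx

/-!
# The trichotomy for dimension spectra of conformal iterated function systems fails
-/

namespace Pool.Agent.Results.MP_b5d711_an.NoTrichotomy

open Set Filter Topology Pool.Agent.R826.CIFS

/-- Type I: a union of finitely many intervals (degenerate ones allowed). -/
def TypeI (F : Set ℝ) : Prop :=
  ∃ S : Set (Set ℝ), S.Finite ∧ (∀ J ∈ S, J.OrdConnected) ∧ F = ⋃₀ S

/-- Type II: Hausdorff dimension `0`. -/
def TypeII (F : Set ℝ) : Prop := dimH F = 0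

/-- Type III: there is `0 < c < sup F` with `dim_x(F) = min(1, c/x)` for all `x ∈ F`
(`c/0 = ∞`). -/
def TypeIII (F : Set ℝ) : Prop :=
  ∃ c : ℝ, 0 < c ∧ c < sSup F ∧
    ∀ x ∈ F, locDim F x = min 1 (ENNReal.ofReal c / ENNReal.ofReal x)

lemma sp_injective : Function.Injective sp := by
  have h : StrictAnti sp := by
    apply strictAnti_nat_of_succ_lt
    intro k
    unfold sp
    have h0 := a_pos k
    have h1 : (a k : ℝ) + 1 ≤ a (k + 1) := by exact_mod_cast a_succ k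
    have h2 : 1 / (2 * (a (k + 1) : ℝ)) < 1 / (2 * (a k : ℝ)) := by
      apply one_div_lt_one_div_of_lt (by positivity)
      linarith
    linarith
  exact h.injective

lemma dim_part : dimH (DS (Icc (0 : ℝ) 1) ph ∩ Ioi (1 / 2)) = 0 := by
  have h1 : DS (Icc (0 : ℝ) 1) ph ∩ Ioi (1 / 2) ⊆
      ⋃ n : ℕ, DSall (Icc (0 : ℝ) 1) ph ∩ Ioi (1 / 2 + 1 / ((n : ℝ) + 1)) := by
    rintro x ⟨hx, hx2⟩
    have hx2' : (1 / 2 : ℝ) < x := hx2
    obtain ⟨n, hn⟩ := exists_nat_one_div_lt (sub_pos.mpr hx2')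
    refine mem_iUnion.mpr ⟨n, isSpec_DS.hi hx, ?_⟩
    show 1 / 2 + 1 / ((n : ℝ) + 1) < x
    linarith
  refine le_antisymm ((dimH_mono h1).trans ?_) bot_le
  rw [dimH_iUnion]
  refine iSup_le fun n => ?_
  rw [dim_upper_part (by positivity)]

lemma not_typeI : ¬ TypeI (DS (Icc (0 : ℝ) 1) ph) := by
  rintro ⟨S, hS, hJ, hF⟩
  -- the part beyond `1/2` would be finite
  have hsub : ∀ J ∈ S, (J ∩ Ioi (1 / 2)).Subsingleton := by
    intro J hJS x hx y hy
    by_contra hne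
    have key : ∀ u v : ℝ, u ∈ J ∩ Ioi (1 / 2) → v ∈ J ∩ Ioi (1 / 2) → u < v → False := by
      intro u v hu hv huv
      have h1 : Icc u v ⊆ DS (Icc (0 : ℝ) 1) ph ∩ Ioi (1 / 2) := by
        intro z hz
        refine ⟨?_, lt_of_lt_of_le hu.2 hz.1⟩
        rw [hF]
        exact ⟨J, hJS, (hJ J hJS).out hu.1 hv.1 hz⟩
      have h2 := dimH_mono h1
      rw [dim_part, Real.dimH_of_nonempty_interior] at h2
      · simp at h2
      · rw [interior_Icc]
        exact nonempty_Ioo.mpr huv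
    rcases lt_or_gt_of_ne hne with h | h
    · exact key x y hx hy h
    · exact key y x hy hx h
  have hfin : (DS (Icc (0 : ℝ) 1) ph ∩ Ioi (1 / 2)).Finite := by
    rw [hF, sUnion_eq_biUnion, iUnion₂_inter]
    exact hS.biUnion fun J hJS => (hsub J hJS).finite
  have hinf : (range sp).Infinite := infinite_range_of_injective sp_injective
  apply hinf
  apply hfin.subset
  rintro _ ⟨k, rfl⟩
  exact ⟨sp_mem k, sp_gt k⟩

lemma not_typeII : ¬ TypeII (DS (Icc (0 : ℝ) 1) ph) := by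
  intro h
  have hsub : Ioo (0 : ℝ) (1 / 2) ⊆ DS (Icc (0 : ℝ) 1) ph := fun x hx => half_mem hx.1 hx.2.le
  have h2 := dimH_mono hsub
  rw [h, Real.dimH_of_nonempty_interior] at h2
  · simp at h2
  · rw [interior_Ioo]
    exact nonempty_Ioo.mpr (by norm_num)

lemma not_typeIII : ¬ TypeIII (DS (Icc (0 : ℝ) 1) ph) := by
  rintro ⟨c, hc0, _, hc⟩
  have h1 := hc (sp 0) (sp_mem 0)
  rw [locDim_gt isSpec_DS (sp_gt 0)] at h1
  have h2 : 0 < min 1 (ENNReal.ofReal c / ENNReal.ofReal (sp 0)) := by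
    refine lt_min one_pos (ENNReal.div_pos ?_ ENNReal.ofReal_ne_top)
    exact (ENNReal.ofReal_pos.mpr hc0).ne'
  rw [← h1] at h2
  exact lt_irrefl _ h2

/-- There is a conformal iterated function system on the line (made of affine maps of `[0,1]`)
whose dimension spectrum is of none of the three types. -/
theorem result :
    ∃ (E : Type) (φ : E → ℝ → ℝ), IsCIFS (Icc (0 : ℝ) 1) φ ∧
      (∀ e, ∃ r b : ℝ, 0 < r ∧ ∀ x, φ e x = r * x + b) ∧
      ¬ TypeI (DS (Icc (0 : ℝ) 1) φ) ∧ ¬ TypeII (DS (Icc (0 : ℝ) 1) φ) ∧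
      ¬ TypeIII (DS (Icc (0 : ℝ) 1) φ) :=
  ⟨E, ph, isCIFS, fun e => ⟨rr e, bb e, sim.pos e, sim.aff e⟩, not_typeI, not_typeII, not_typeIII⟩

end Pool.Agent.Results.MP_b5d711_an.NoTrichotomy
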